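import Pool.Agent.Q41.OSC.Asm
import Pool.Agent.Q41.OSC.TaskA
import Pool.Agent.Q41.OSC.TaskB
import Pool.Agent.Q41.OSC.TaskBlk
import Pool.Agent.Q41.OSC.TaskC
import Pool.Agent.Q41.OSC.TaskClose
import Pool.Agent.Q41.OSC.TaskClosed
import Pool.Agent.Q41.OSC.TaskCompact
import Pool.Agent.Q41.OSC.TaskCount
import Pool.Agent.Q41.OSC.TaskDT
import Pool.Agent.Q41.OSC.TaskDense
import Pool.Agent.Q41.OSC.TaskEnt
import Pool.Agent.Q41.OSC.TaskExt
import Pool.Agent.Q41.OSC.TaskGen
import Pool.Agent.Q41.OSC.TaskGlue
import Pool.Agent.Q41.OSC.TaskGoodP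
import Pool.Agent.Q41.OSC.TaskGrow
import Pool.Agent.Q41.OSC.TaskHaem
import Pool.Agent.Q41.OSC.TaskLangFam
import Pool.Agent.Q41.OSC.TaskLogBd
import Pool.Agent.Q41.OSC.TaskOne
import Pool.Agent.Q41.OSC.TaskParse
import Pool.Agent.Q41.OSC.TaskPoint
import Pool.Agent.Q41.OSC.TaskRate
import Pool.Agent.Q41.OSC.TaskSepList
import Pool.Agent.Q41.OSC.TaskShift
import Pool.Agent.Q41.OSC.TaskSpanList
import Pool.Agent.Q41.OSC.TaskSpanLow
import Pool.Agent.Q41.OSC.TaskTokP
import Pool.Agent.Q41.OSC.TaskTr
import Pool.Agent.Q41.OSC.TaskWord
import Pool.Agent.Q41.OSC.TaskZP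

/-!
# MP_307271_an, Q1: transitive systems where both the spanning and the separation rates oscillate

There are a compact metric space `X`, a homeomorphism `F` of `X` with a dense forward orbit and
finite topological entropy, and an `ε > 0`, such that both
`liminf (log span(X, ε, D_T))/T < limsup (log span(X, ε, D_T))/T` and
`liminf (log sep(X, ε, D_T))/T < limsup (log sep(X, ε, D_T))/T`.

The system is a subshift over 169 symbols: zero and the 84 triples of a set with 9 elements in two
phases.  In one phase different triples are distinguishable (distance 1) if they do not meet in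
exactly one point, in the other if they do; so two different triples are distinguishable in exactly
one phase, while by Haemers' bound at most `9 ^ m` words of length `m` in one phase are pairwise
distinguishable.  The words `P_k` are built from each other with long runs of zeros and all blocks
`w (phase 1) 0^g w (phase 2)`, `|w| = g ^ 2`, `g = |P_k| + 1`.  At the times `T = g` only one phase is
seen: `span ≤ sep ≤ 8 (T + 1) 9 ^ T`.  At the times `T = 2 g ^ 2 + g + 2` the blocks are seen as a whole:
`sep ≥ span ≥ 84 ^ (g ^ 2)`; and `84 > 9 ^ 2`.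
-/

namespace Pool.Agent.Results.MP_307271_an.OscillatingRates
open Filter Topology Pool.Agent.Q41.OSC

/-- **Theorem** (answers Q1, a question of Weiss, positively).  There are a compact metric space `X`
and a homeomorphism `F : X → X` with a dense forward orbit, such that the topological entropy is
finite (`log sep(X, ε, D_T) / T ≤ C` for all large `T`, for every `ε > 0`, with one `C`), and an
`ε > 0` for which both the exponential rates of the smallest spanning sets and of the largest
separated sets have `liminf < limsup` for `T → ∞`. -/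
theorem result :
    ∃ (X : Type) (_ : MetricSpace X) (_ : CompactSpace X) (F : X ≃ₜ X),
      (∃ x : X, Dense (Set.range fun m : ℕ => (⇑F)^[m] x)) ∧
      (∃ C : ℝ, ∀ ε : ℝ, 0 < ε → ∀ᶠ T : ℕ in atTop, Real.log (sep F ε T) / T ≤ C) ∧
      ∃ ε : ℝ, 0 < ε ∧
        liminf (fun T : ℕ => Real.log (span F ε T) / T) atTop <
          limsup (fun T : ℕ => Real.log (span F ε T) / T) atTop ∧
        liminf (fun T : ℕ => Real.log (sep F ε T) / T) atTop <
          limsup (fun T : ℕ => Real.log (sep F ε T) / T) atTop := by
  have hGrow := TaskGrow.main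
  have hClose := TaskClose.main
  have hHaem := TaskHaem.main
  have hC := TaskC.main (TaskA.main hHaem) (TaskB.main hHaem)
  have hCount := TaskCount.main hC
  have hGoodP := TaskGoodP.main TaskGlue.main TaskWord.main hGrow
  have hLangFam := TaskLangFam.main hGoodP hGrow
  have hZP := TaskZP.main hGrow
  have hPoint := TaskPoint.main hGrow hZP
  have hDT := TaskDT.main
  have hTr := TaskTr.main hDT TaskOne.main
  exact Asm.main TaskShift.main (TaskCompact.main hClose) (TaskClosed.main hClose)
    (TaskDense.main hPoint hClose) (TaskEnt.main hDT hClose) (TaskGen.main hDT)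
    (TaskSepList.main hTr) (TaskSpanList.main hTr (TaskExt.main hPoint))
    (TaskSpanLow.main TaskParse.main TaskTokP.main TaskBlk.main) hLangFam hCount hGrow
    TaskRate.main TaskLogBd.main

end Pool.Agent.Results.MP_307271_an.OscillatingRates
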