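import Pool.Agent.Q259.SPQ.Asm
import Pool.Agent.Q259.SPQ.TaskBig
import Pool.Agent.Q259.SPQ.TaskBlk
import Pool.Agent.Q259.SPQ.TaskClose
import Pool.Agent.Q259.SPQ.TaskClosed
import Pool.Agent.Q259.SPQ.TaskCompact
import Pool.Agent.Q259.SPQ.TaskDT
import Pool.Agent.Q259.SPQ.TaskDense
import Pool.Agent.Q259.SPQ.TaskEnt
import Pool.Agent.Q259.SPQ.TaskExt
import Pool.Agent.Q259.SPQ.TaskGen
import Pool.Agent.Q259.SPQ.TaskGlue
import Pool.Agent.Q259.SPQ.TaskGoodP
import Pool.Agent.Q259.SPQ.TaskGrow
import Pool.Agent.Q259.SPQ.TaskLangFam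
import Pool.Agent.Q259.SPQ.TaskLim
import Pool.Agent.Q259.SPQ.TaskLogBd
import Pool.Agent.Q259.SPQ.TaskMid
import Pool.Agent.Q259.SPQ.TaskMul
import Pool.Agent.Q259.SPQ.TaskOne
import Pool.Agent.Q259.SPQ.TaskParse
import Pool.Agent.Q259.SPQ.TaskPoint
import Pool.Agent.Q259.SPQ.TaskRate
import Pool.Agent.Q259.SPQ.TaskSepList
import Pool.Agent.Q259.SPQ.TaskSepLow
import Pool.Agent.Q259.SPQ.TaskSepPts
import Pool.Agent.Q259.SPQ.TaskSepUp
import Pool.Agent.Q259.SPQ.TaskShift
import Pool.Agent.Q259.SPQ.TaskSmallLow
import Pool.Agent.Q259.SPQ.TaskSmallUp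
import Pool.Agent.Q259.SPQ.TaskSpanList
import Pool.Agent.Q259.SPQ.TaskSpanLow
import Pool.Agent.Q259.SPQ.TaskSpanPts
import Pool.Agent.Q259.SPQ.TaskSpanUp
import Pool.Agent.Q259.SPQ.TaskTokP
import Pool.Agent.Q259.SPQ.TaskTr
import Pool.Agent.Q259.SPQ.TaskWnLow
import Pool.Agent.Q259.SPQ.TaskWnUp
import Pool.Agent.Q259.SPQ.TaskWord
import Pool.Agent.Q259.SPQ.TaskZP

/-!
# MP_307271_an, Q2: the spanning rate oscillates while all separation rates converge

There are a compact metric space `X`, a homeomorphism `F` of `X` with a dense forward orbit and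
finite topological entropy, such that `liminf (log span(X, ε, D_T))/T < limsup (log span(X, ε, D_T))/T`
for one `ε > 0` (`ε = 1`), while for every `δ > 0` the limit of `(log sep(X, δ, D_T))/T` exists.

The system is a subshift over 11 symbols: zero and 5 letters in two phases.  In each phase two letters
are not distinguishable (distance 1/2 instead of 1) if they are joined in a star with four resp. three
leaves, and the two stars have no common edge.  So in one phase every word is covered by two choices
per letter (the centre and, for the second star, the fifth letter, which is isolated), while two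
different words are distinguishable in one of the two phases.
The words `P_k` are built from each other with long runs of zeros and all blocks
`w (phase 1) 0^g w (phase 2)`, `|w| = g ^ 2`, `g = |P_k| + 1`.  At the times `T = g` only one phase is
seen: `span ≤ 8 (T + 1) 2 ^ T`.  At the times `T = 2 g ^ 2 + g + 2` the blocks are seen as a whole:
`span ≥ 5 ^ (g ^ 2)`, and `5 > 2 ^ 2`.  The separation numbers have rate `log 4` for `1/2 < δ ≤ 1`:
words over 4 letters in one phase give the lower bound, and identifying two letters per phase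
together with submultiplicativity of the number of words gives the upper bound.  They have rate
`log 5` for `δ ≤ 1/2`, and are `1` for `δ > 1`.
-/

namespace Pool.Agent.Results.MP_307271_an.SpanOscillatesSepConverges
open Filter Topology Pool.Agent.Q259.SPQ

/-- **Theorem** (answers Q2 positively).  There are a compact metric space `X` and a homeomorphism
`F : X → X` with a dense forward orbit, such that the topological entropy is finite
(`log sep(X, ε, D_T) / T ≤ C` for all large `T`, for every `ε > 0`, with one `C`), for some `ε > 0`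
the exponential rate of the smallest spanning sets has `liminf < limsup` for `T → ∞`, and for every
`δ > 0` the exponential rate of the largest separated sets converges for `T → ∞`. -/
theorem result :
    ∃ (X : Type) (_ : MetricSpace X) (_ : CompactSpace X) (F : X ≃ₜ X),
      (∃ x : X, Dense (Set.range fun m : ℕ => (⇑F)^[m] x)) ∧
      (∃ C : ℝ, ∀ ε : ℝ, 0 < ε → ∀ᶠ T : ℕ in atTop, Real.log (sep F ε T) / T ≤ C) ∧
      (∃ ε : ℝ, 0 < ε ∧
        liminf (fun T : ℕ => Real.log (span F ε T) / T) atTop <
          limsup (fun T : ℕ => Real.log (span F ε T) / T) atTop) ∧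
      ∀ δ : ℝ, 0 < δ → ∃ L : ℝ,
        Tendsto (fun T : ℕ => Real.log (sep F δ T) / T) atTop (𝓝 L) := by
  have hGrow := TaskGrow.main
  have hClose := TaskClose.main
  have hGoodP := TaskGoodP.main TaskGlue.main TaskWord.main hGrow
  have hLangFam := TaskLangFam.main hGoodP hGrow
  have hZP := TaskZP.main hGrow
  have hPoint := TaskPoint.main hGrow hZP
  have hExt := TaskExt.main hPoint
  have hDT := TaskDT.main
  have hTr := TaskTr.main hDT TaskOne.main
  exact Asm.main TaskShift.main (TaskCompact.main hClose) (TaskClosed.main hClose)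
    (TaskDense.main hPoint hClose) (TaskEnt.main hDT hClose) (TaskGen.main hDT)
    (TaskSepList.main hTr) (TaskSpanList.main hTr hExt)
    (TaskSpanLow.main TaskParse.main TaskTokP.main TaskBlk.main) hGrow
    TaskRate.main TaskLogBd.main TaskMul.main (TaskWnUp.main hLangFam) (TaskSepLow.main hGrow)
    (TaskWnLow.main hGrow) TaskSepUp.main (TaskSpanUp.main hLangFam hGrow)
    (TaskSmallLow.main hExt hDT) (TaskSmallUp.main hClose hDT) (TaskMid.main hDT)
    (TaskBig.main hDT) (TaskSpanPts.main hTr hExt) (TaskSepPts.main hTr hExt) TaskLim.main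

end Pool.Agent.Results.MP_307271_an.SpanOscillatesSepConverges
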